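import Pool.Agent.W276.GE.Basic

/-!
Project GE, task GE-ARCH.
-/

set_option autoImplicit false
set_option linter.unusedSectionVars false

open Height NumberField

noncomputable section

namespace Pool.Agent.W462.GE

open Pool.Agent.W276.GE

/-- value of a real form at a complex point -/
def evR {n t : ℕ} (w : E n t → ℝ) (x : Fin n → ℂ) : ℂ :=
  ∑ α : E n t, (w α : ℂ) * ∏ i, x i ^ α.1 i

theorem evR_int {n t : ℕ} (g : E n t → ℤ) (x : Fin n → ℂ) :
    evR (fun α => (g α : ℝ)) x = ev g x := by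
  simp [evR, ev]

theorem evR_comb {n d t : ℕ} (h : d ≤ t) (F : Fin n → E n d → ℤ) (G w : E n t → ℝ)
    (θ : Fin n → E n (t - d) → ℝ)
    (hG : ∀ α, G α = w α + ∑ j, ∑ γ, θ j γ * (sh (F j) γ α : ℝ)) (x : Fin n → ℂ) :
    evR G x = evR w x + ∑ j, ∑ γ, (θ j γ : ℂ) * ((∏ i, x i ^ γ.1 i) * ev (F j) x) := by
  unfold evR
  have h1 : ∀ α : E n t, (G α : ℂ) * ∏ i, x i ^ α.1 i = (w α : ℂ) * ∏ i, x i ^ α.1 i +
      ∑ j, ∑ γ, (θ j γ : ℂ) * (((sh (F j) γ α : ℤ) : ℂ) * ∏ i, x i ^ α.1 i) := by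
    intro α
    rw [hG α]
    push_cast
    rw [add_mul, Finset.sum_mul]
    congr 1
    refine Finset.sum_congr rfl fun j _ => ?_
    rw [Finset.sum_mul]
    refine Finset.sum_congr rfl fun γ _ => ?_
    ring
  rw [Finset.sum_congr rfl fun α _ => h1 α, Finset.sum_add_distrib]
  congr 1
  rw [Finset.sum_comm]
  refine Finset.sum_congr rfl fun j _ => ?_
  rw [Finset.sum_comm]
  refine Finset.sum_congr rfl fun γ _ => ?_
  rw [← Finset.mul_sum]
  congr 1
  have h2 := ev_sh (R := ℂ) (t := t) (Nat.sub_add_cancel h) (F j) γ x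
  rw [← h2]
  rfl

/-- the form `c x_i^t` -/
def wi {n t : ℕ} (i : Fin n) (c : ℝ) : E n t → ℝ := fun α => if α.1 = Pi.single i t then c else 0

theorem single_mem {n t : ℕ} (i : Fin n) : Pi.single i t ∈ Finset.Nat.antidiagonalTuple n t := by
  rw [mem_E]
  simp

theorem evR_wi {n t : ℕ} (i : Fin n) (c : ℝ) (x : Fin n → ℂ) :
    evR (wi (t := t) i c) x = c * x i ^ t := by
  unfold evR wi
  rw [Finset.sum_eq_single (⟨Pi.single i t, single_mem i⟩ : E n t)]
  · simp only [if_true]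
    congr 1
    rw [Finset.prod_eq_single i]
    · simp
    · intro k _ hk
      simp [Pi.single_eq_of_ne hk]
    · intro h; exact absurd (Finset.mem_univ _) h
  · intro α _ hα
    rw [if_neg (fun h => hα (Subtype.ext h))]
    simp
  · intro h; exact absurd (Finset.mem_univ _) h

instance {n t : ℕ} [NeZero n] : Nonempty (E n t) := ⟨⟨Pi.single 0 t, single_mem 0⟩⟩

/-- a nonzero system of values -/
theorem F_ne {n d t : ℕ} (hd : 1 ≤ d) (hdt : d ≤ t) {F : Fin n → E n d → ℤ} (hS : Spans F t)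
    {x : Fin n → ℂ} (hx : x ≠ 0) : ∃ i, ev (F i) x ≠ 0 := by
  by_contra hcon
  push Not at hcon
  apply hx
  funext i
  obtain ⟨θ, hθ⟩ := hS (wi i 1)
  have h1 := evR_comb hdt F (wi i 1) (fun _ => 0) θ (fun α => by rw [zero_add]; exact hθ α) x
  rw [evR_wi] at h1
  have h2 : (∑ j, ∑ γ : E n (t - d), (θ j γ : ℂ) * ((∏ i, x i ^ γ.1 i) * ev (F j) x)) = 0 := by
    refine Finset.sum_eq_zero fun j _ => Finset.sum_eq_zero fun γ _ => ?_
    rw [hcon j, mul_zero, mul_zero]
  have h3 : evR (fun _ : E n t => (0 : ℝ)) x = 0 := by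
    unfold evR
    simp
  rw [h2, h3, add_zero, Complex.ofReal_one, one_mul] at h1
  exact pow_eq_zero_iff (by omega) |>.1 h1

section height

variable {K : Type} [Field K] [NumberField K] {n : ℕ}

theorem coe_ne {x : Fin n → 𝓞 K} (hx : x ≠ 0) : (fun i => (x i : K)) ≠ 0 := by
  intro h
  apply hx
  funext i
  have h1 := congrFun h i
  exact RingOfIntegers.ext h1

theorem HN {x : Fin n → 𝓞 K} (hx : x ≠ 0) :
    mulHeight (fun i => (x i : K)) * (Ideal.absNorm (Ideal.span (Set.range x)) : ℝ) =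
      ∏ v : InfinitePlace K, (⨆ i, v (x i : K)) ^ v.mult := by
  rw [NumberField.mulHeight_eq (coe_ne hx), mul_assoc,
    mul_comm _ ((Ideal.absNorm (Ideal.span (Set.range x)) : ℕ) : ℝ)]
  rw [NumberField.absNorm_mul_finprod_finitePlace_eq_one hx, mul_one]

end height

section core

variable {n d t H : ℕ}

/-- the tail of an element of a cell is small -/
theorem tail_le (hdt : d ≤ t) (F : Fin n → E n d → ℤ) (θ : Fin n → E n (t - d) → ℝ)
    (hθ : ∀ j γ, 0 ≤ θ j γ ∧ θ j γ ≤ 1) (x : Fin n → ℂ) (A τ : ℝ) (hA : 0 ≤ A) (_hτ : 0 ≤ τ)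
    (hx : ∀ i, ‖x i‖ ≤ A) (hF : ∀ j, ‖ev (F j) x‖ ≤ τ * A ^ d) :
    ‖∑ j, ∑ γ, (θ j γ : ℂ) * ((∏ i, x i ^ γ.1 i) * ev (F j) x)‖ ≤
      (n * Fintype.card (E n (t - d)) : ℝ) * τ * A ^ t := by
  have h1 : ∀ j, ∀ γ : E n (t - d), ‖(θ j γ : ℂ) * ((∏ i, x i ^ γ.1 i) * ev (F j) x)‖ ≤
      τ * A ^ t := by
    intro j γ
    rw [norm_mul, norm_mul, Complex.norm_real, Real.norm_eq_abs, abs_of_nonneg (hθ j γ).1,
      norm_prod]
    have h2 : ∏ i, ‖x i ^ γ.1 i‖ ≤ A ^ (t - d) := by
      have e : A ^ (t - d) = ∏ i, A ^ γ.1 i := by rw [Finset.prod_pow_eq_pow_sum, E_sum γ]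
      rw [e]
      refine Finset.prod_le_prod (fun i _ => norm_nonneg _) fun i _ => ?_
      rw [norm_pow]
      exact pow_le_pow_left₀ (norm_nonneg _) (hx i) _
    have h3 : (∏ i, ‖x i ^ γ.1 i‖) * ‖ev (F j) x‖ ≤ A ^ (t - d) * (τ * A ^ d) :=
      mul_le_mul h2 (hF j) (norm_nonneg _) (by positivity)
    have h4 : A ^ (t - d) * (τ * A ^ d) = τ * A ^ t := by
      rw [mul_left_comm, ← pow_add, Nat.sub_add_cancel hdt]
    have h5 : 0 ≤ (∏ i, ‖x i ^ γ.1 i‖) * ‖ev (F j) x‖ :=
      mul_nonneg (Finset.prod_nonneg fun i _ => norm_nonneg _) (norm_nonneg _)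
    calc θ j γ * ((∏ i, ‖x i ^ γ.1 i‖) * ‖ev (F j) x‖) ≤
        1 * ((∏ i, ‖x i ^ γ.1 i‖) * ‖ev (F j) x‖) := mul_le_mul_of_nonneg_right (hθ j γ).2 h5
      _ ≤ τ * A ^ t := by rw [one_mul, ← h4]; exact h3
  refine (norm_sum_le _ _).trans ?_
  refine (Finset.sum_le_sum fun j _ => (norm_sum_le _ _).trans
    (Finset.sum_le_sum fun γ _ => h1 j γ)).trans ?_
  simp only [Finset.sum_const, Finset.card_univ, Fintype.card_fin, nsmul_eq_mul]
  exact le_of_eq (by ring)

theorem cell_box {F : Fin n → E n d → ℤ} (hF : ∀ i, F i ∈ box n d H) {w : E n t → ℝ}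
    (hw : ∀ α, |w α| ≤ H) {G : E n t → ℤ} (hG : G ∈ Cell F w) :
    G ∈ box n t (H + n * Fintype.card (E n (t - d)) * H) := by
  obtain ⟨θ, hθ, hG⟩ := hG
  rw [mem_box]
  intro α
  have h1 : |(G α : ℝ)| ≤ H + n * Fintype.card (E n (t - d)) * H := by
    rw [hG α]
    refine (abs_add_le _ _).trans (add_le_add (hw α) ?_)
    have h2 : ∀ j, ∀ γ : E n (t - d), |θ j γ * (sh (F j) γ α : ℝ)| ≤ H := by
      intro j γ
      rw [abs_mul, abs_of_nonneg (hθ j γ).1]
      have h3 : |((sh (F j) γ α : ℤ) : ℝ)| ≤ H := by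
        have := sh_abs_le (hF j) γ α
        exact_mod_cast this
      calc θ j γ * |((sh (F j) γ α : ℤ) : ℝ)| ≤ 1 * |((sh (F j) γ α : ℤ) : ℝ)| :=
            mul_le_mul_of_nonneg_right (hθ j γ).2 (abs_nonneg _)
        _ ≤ H := by rw [one_mul]; exact h3
    refine (Finset.abs_sum_le_sum_abs _ _).trans ?_
    refine (Finset.sum_le_sum fun j _ => (Finset.abs_sum_le_sum_abs _ _).trans
      (Finset.sum_le_sum fun γ _ => h2 j γ)).trans ?_
    simp only [Finset.sum_const, Finset.card_univ, Fintype.card_fin, nsmul_eq_mul]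
    exact le_of_eq (by ring)
  exact_mod_cast h1

theorem core (hI : S_ideal) (hn : 1 ≤ n) (hd : 1 ≤ d) (hdt : d ≤ t)
    (F : Fin n → E n d → ℤ) (hF : ∀ i, F i ∈ box n d H) (hS : Spans F t)
    (K : Type) [Field K] [NumberField K] (p : Fin n → 𝓞 K) (hp : p ≠ 0)
    (hle : mulHeight (fun i => ev (F i) (fun k => (p k : K))) ≤ mulHeight (fun k => (p k : K))) :
    ((H : ℝ) / (3 * (n * Fintype.card (E n (t - d))))) ^ (Module.finrank ℚ K) *
          mulHeight (fun k => (p k : K)) ^ (d - 1) ≤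
        (nv t (H + n * Fintype.card (E n (t - d)) * H) (fun k => (p k : K)) : ℝ) ^
          (Module.finrank ℚ K) := by
  classical
  have : NeZero n := ⟨by omega⟩
  set P : Fin n → K := fun k => (p k : K) with hP
  set q : Fin n → 𝓞 K := fun i => ev (F i) p with hq
  have hevq : ∀ i, ev (F i) P = (q i : K) := fun i =>
    (ev_map (algebraMap (𝓞 K) K) (F i) p).symm
  have hemb : ∀ (v : InfinitePlace K) (x : K), ‖v.embedding x‖ = v x := fun v x =>
    InfinitePlace.norm_embedding_eq v x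
  have hq0 : ∃ i, (q i : K) ≠ 0 := by
    have : Nonempty (InfinitePlace K) := inferInstance
    obtain ⟨v⟩ := this
    have hx : (fun i => v.embedding (P i)) ≠ 0 := by
      intro h
      apply coe_ne hp
      funext i
      have h1 := congrFun h i
      exact (map_eq_zero v.embedding).1 h1
    obtain ⟨i, hi⟩ := F_ne hd hdt hS hx
    refine ⟨i, fun h0 => hi ?_⟩
    rw [← ev_map v.embedding (F i) P, hevq, h0, map_zero]
  have hqne : q ≠ 0 := by
    rintro h
    obtain ⟨i, hi⟩ := hq0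
    apply hi
    rw [h]
    rfl
  -- the two products
  set A : InfinitePlace K → ℝ := fun v => ⨆ i, v (p i : K) with hA
  set B : InfinitePlace K → ℝ := fun v => ⨆ i, v (q i : K) with hB
  have hAle : ∀ v i, v (p i : K) ≤ A v := fun v i =>
    le_ciSup (f := fun i => v (p i : K)) (Set.finite_range _).bddAbove i
  have hBle : ∀ v i, v (q i : K) ≤ B v := fun v i =>
    le_ciSup (f := fun i => v (q i : K)) (Set.finite_range _).bddAbove i
  have hApos : ∀ v, 0 < A v := by
    intro v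
    obtain ⟨i, hi⟩ := Function.ne_iff.1 (coe_ne hp)
    exact lt_of_lt_of_le (v.pos_iff.2 hi) (hAle v i)
  have hBpos : ∀ v, 0 < B v := by
    intro v
    obtain ⟨i, hi⟩ := hq0
    exact lt_of_lt_of_le (v.pos_iff.2 hi) (hBle v i)
  obtain ⟨v₀, -, hv₀⟩ := Finset.exists_min_image (Finset.univ : Finset (InfinitePlace K))
    (fun v => B v / A v ^ d) Finset.univ_nonempty
  set τ : ℝ := B v₀ / A v₀ ^ d with hτ
  have hτ0 : 0 < τ := div_pos (hBpos _) (pow_pos (hApos _) _)
  have hBτ : ∀ v, τ * A v ^ d ≤ B v := by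
    intro v
    have h1 := hv₀ v (Finset.mem_univ _)
    rwa [le_div_iff₀ (pow_pos (hApos _) _)] at h1
  have hB0 : B v₀ = τ * A v₀ ^ d := by
    rw [hτ, div_mul_cancel₀ _ (pow_pos (hApos _) _).ne']
  set e := Module.finrank ℚ K with he
  set Na : ℝ := (Ideal.absNorm (Ideal.span (Set.range p)) : ℝ) with hNa
  set Nb : ℝ := (Ideal.absNorm (Ideal.span (Set.range q)) : ℝ) with hNb
  have hXN : mulHeight P * Na = ∏ v, A v ^ v.mult := HN hp
  have hYN : mulHeight (fun i => (q i : K)) * Nb = ∏ v, B v ^ v.mult := HN hqne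
  have hYle : mulHeight (fun i => (q i : K)) ≤ mulHeight P := by
    have : (fun i => ev (F i) P) = fun i => (q i : K) := funext hevq
    rw [this] at hle
    exact hle
  have hX1 : 1 ≤ mulHeight P := one_le_mulHeight P
  have hX0 : 0 < mulHeight P := by linarith
  have hPA : 0 < ∏ v, A v ^ v.mult := Finset.prod_pos fun v _ => pow_pos (hApos v) _
  have hNa0 : 0 < Na := by
    by_contra hcon
    have h1 : Na = 0 := le_antisymm (not_lt.1 hcon) (Nat.cast_nonneg _)
    rw [h1, mul_zero] at hXN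
    exact hPA.ne hXN
  have hNb0 : 0 ≤ Nb := Nat.cast_nonneg _
  have hstar : mulHeight P ^ (d - 1) * τ ^ e * Na ^ d ≤ Nb := by
    have h1 : τ ^ e * (∏ v, A v ^ v.mult) ^ d ≤ ∏ v, B v ^ v.mult := by
      rw [he, ← InfinitePlace.sum_mult_eq, ← Finset.prod_pow_eq_pow_sum, ← Finset.prod_pow,
        ← Finset.prod_mul_distrib]
      refine Finset.prod_le_prod (fun v _ => ?_) fun v _ => ?_
      · have := hApos v; positivity
      · rw [← pow_mul, mul_comm v.mult d, pow_mul, ← mul_pow]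
        have := hApos v
        exact pow_le_pow_left₀ (by positivity) (hBτ v) _
    have h2 : mulHeight P ^ (d - 1) * (mulHeight (fun i => (q i : K)) * Nb) ≤
        mulHeight P ^ d * Nb := by
      have h3 : mulHeight P ^ d = mulHeight P ^ (d - 1) * mulHeight P := by
        rw [← pow_succ, Nat.sub_add_cancel hd]
      rw [h3, mul_assoc]
      exact mul_le_mul_of_nonneg_left (mul_le_mul_of_nonneg_right hYle hNb0) (by positivity)
    rw [hYN] at h2
    have h4 : (mulHeight P ^ (d - 1) * τ ^ e * Na ^ d) * (∏ v, A v ^ v.mult) ^ d ≤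
        Nb * (∏ v, A v ^ v.mult) ^ d := by
      calc (mulHeight P ^ (d - 1) * τ ^ e * Na ^ d) * (∏ v, A v ^ v.mult) ^ d =
          Na ^ d * (mulHeight P ^ (d - 1) * (τ ^ e * (∏ v, A v ^ v.mult) ^ d)) := by ring
        _ ≤ Na ^ d * (mulHeight P ^ (d - 1) * ∏ v, B v ^ v.mult) := by
            refine mul_le_mul_of_nonneg_left ?_ (by positivity)
            exact mul_le_mul_of_nonneg_left h1 (by positivity)
        _ ≤ Na ^ d * (mulHeight P ^ d * Nb) := mul_le_mul_of_nonneg_left h2 (by positivity)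
        _ = Nb * (mulHeight P * Na) ^ d := by ring
        _ = Nb * (∏ v, A v ^ v.mult) ^ d := by rw [hXN]
    exact le_of_mul_le_mul_right h4 (by positivity)
  -- the cells
  set m : ℝ := n * Fintype.card (E n (t - d)) with hm
  have hm0 : 0 < m := by
    rw [hm]
    have h1 : 0 < Fintype.card (E n (t - d)) := Fintype.card_pos
    have h2 : 0 < n := hn
    positivity
  obtain ⟨i₀, hi₀⟩ := exists_eq_ciSup_of_finite (f := fun i => v₀ (p i : K))
  set x : Fin n → ℂ := fun i => v₀.embedding (P i) with hx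
  have hxA : ∀ i, ‖x i‖ ≤ A v₀ := fun i => by
    rw [hx]; simp only; rw [hemb]; exact hAle v₀ i
  have hxi : ‖x i₀‖ = A v₀ := by
    rw [hx]; simp only; rw [hemb]; exact hi₀
  have hxF : ∀ j, ‖ev (F j) x‖ ≤ τ * A v₀ ^ d := by
    intro j
    rw [← hB0, hx, ← ev_map v₀.embedding (F j) P, hevq, hemb]
    exact hBle v₀ j
  set w : ℕ → E n t → ℝ := fun j => wi i₀ (3 * m * τ * j) with hw
  set S : ℕ → Set (𝓞 K) := fun j => (fun G : E n t → ℤ => ev G p) '' Cell F (w j) with hSdef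
  have hAt : 0 < A v₀ ^ t := pow_pos (hApos _) _
  have hval : ∀ j, ∀ z ∈ S j, ‖v₀.embedding (z : K) - ((3 * m * τ * j : ℝ) : ℂ) * x i₀ ^ t‖ ≤
      m * τ * A v₀ ^ t := by
    rintro j z ⟨G, ⟨θ, hθ, hG⟩, rfl⟩
    have h1 : v₀.embedding ((ev G p : 𝓞 K) : K) = evR (fun α => (G α : ℝ)) x := by
      rw [evR_int, hx, ← ev_map v₀.embedding G P]
      congr 1
      exact ev_map (algebraMap (𝓞 K) K) G p
    simp only
    rw [h1, evR_comb hdt F _ (w j) θ hG x, hw, evR_wi, add_sub_cancel_left]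
    exact tail_le hdt F θ hθ x (A v₀) τ (hApos _).le hτ0.le hxA hxF
  have hdisj : ∀ j j', j ≠ j' → Disjoint (S j) (S j') := by
    intro j j' hjj
    rw [Set.disjoint_left]
    intro z hz hz'
    have h1 := hval j z hz
    have h2 := hval j' z hz'
    set c : ℂ := x i₀ ^ t
    have hc : ‖c‖ = A v₀ ^ t := by
      show ‖x i₀ ^ t‖ = _
      rw [norm_pow, hxi]
    have h3 : ‖(((3 * m * τ * j : ℝ) : ℂ) - ((3 * m * τ * j' : ℝ) : ℂ)) * c‖ ≤
        m * τ * A v₀ ^ t + m * τ * A v₀ ^ t := by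
      have e : (((3 * m * τ * j : ℝ) : ℂ) - ((3 * m * τ * j' : ℝ) : ℂ)) * c =
          (v₀.embedding (z : K) - ((3 * m * τ * j' : ℝ) : ℂ) * c) -
          (v₀.embedding (z : K) - ((3 * m * τ * j : ℝ) : ℂ) * c) := by ring
      rw [e]
      exact (norm_sub_le _ _).trans (add_le_add h2 h1)
    rw [norm_mul, hc, ← Complex.ofReal_sub, Complex.norm_real, Real.norm_eq_abs,
      ← mul_sub, abs_mul, abs_of_pos (by positivity)] at h3
    have h4 : (1 : ℝ) ≤ |(j : ℝ) - j'| := by
      have h5 : ((j : ℤ) - j') ≠ 0 := by omega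
      have h6 : (1 : ℤ) ≤ |(j : ℤ) - j'| := Int.one_le_abs h5
      exact_mod_cast h6
    have h7 : 3 * m * τ * 1 * A v₀ ^ t ≤ 3 * m * τ * |(j : ℝ) - j'| * A v₀ ^ t := by
      gcongr
    have h8 : 0 < m * τ * A v₀ ^ t := by positivity
    nlinarith
  set J : ℕ := ⌊(H : ℝ) / (3 * m * τ)⌋₊ with hJ
  have hJle : (J : ℝ) ≤ (H : ℝ) / (3 * m * τ) := Nat.floor_le (by positivity)
  have hJlt : (H : ℝ) / (3 * m * τ) < J + 1 := Nat.lt_floor_add_one _
  set T := H + n * Fintype.card (E n (t - d)) * H with hT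
  set V : Set K := (fun g : E n t → ℤ => ev g P) '' (box n t T : Set (E n t → ℤ)) with hV
  have hVfin : V.Finite := (Finset.finite_toSet _).image _
  have hSV : ∀ j, j ≤ J → ∀ z ∈ S j, (z : K) ∈ V := by
    rintro j hj z ⟨G, hG, rfl⟩
    refine ⟨G, ?_, (ev_map (algebraMap (𝓞 K) K) G p).symm⟩
    refine cell_box hF (fun α => ?_) hG
    rw [hw]
    unfold wi
    simp only
    split_ifs
    · rw [abs_of_nonneg (by positivity)]
      have h1 : (j : ℝ) ≤ (H : ℝ) / (3 * m * τ) := le_trans (by exact_mod_cast hj) hJle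
      rw [le_div_iff₀ (by positivity)] at h1
      linarith
    · rw [abs_zero]; exact Nat.cast_nonneg _
  have hinj : Function.Injective (fun z : 𝓞 K => (z : K)) := fun a b h => RingOfIntegers.ext h
  have hSfin : ∀ j, j ≤ J → (S j).Finite := by
    intro j hj
    refine Set.Finite.of_finite_image (hVfin.subset ?_) (f := fun z : 𝓞 K => (z : K))
      hinj.injOn
    rintro _ ⟨z, hz, rfl⟩
    exact hSV j hj z hz
  -- counting
  obtain ⟨j₀, hj₀, hmin⟩ := Finset.exists_min_image (Finset.range (J + 1)) (fun j => (S j).ncard)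
    ⟨0, by simp⟩
  rw [Finset.mem_range] at hj₀
  have hcount : (J + 1) * (S j₀).ncard ≤ V.ncard := by
    let Sf : ℕ → Finset (𝓞 K) := fun j => if h : j ≤ J then (hSfin j h).toFinset else ∅
    have hSf : ∀ j ≤ J, ∀ z, z ∈ Sf j ↔ z ∈ S j := by
      intro j hj z
      simp only [Sf, dif_pos hj, Set.Finite.mem_toFinset]
    have hcard : ∀ j ≤ J, (Sf j).card = (S j).ncard := by
      intro j hj
      simp only [Sf, dif_pos hj]
      exact (Set.ncard_eq_toFinset_card _ _).symm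
    have h1 : ((Finset.range (J + 1)).biUnion Sf).card = ∑ j ∈ Finset.range (J + 1), (Sf j).card := by
      refine Finset.card_biUnion fun j hj j' hj' hne => ?_
      rw [Function.onFun, Finset.disjoint_left]
      intro z hz hz'
      rw [Finset.mem_coe, Finset.mem_range] at hj hj'
      exact Set.disjoint_left.1 (hdisj j j' hne) ((hSf j (by omega) z).1 hz)
        ((hSf j' (by omega) z).1 hz')
    have h2 : (J + 1) * (S j₀).ncard ≤ ∑ j ∈ Finset.range (J + 1), (Sf j).card := by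
      calc (J + 1) * (S j₀).ncard = ∑ j ∈ Finset.range (J + 1), (S j₀).ncard := by simp
        _ ≤ _ := by
          refine Finset.sum_le_sum fun j hj => ?_
          rw [hcard j (by rw [Finset.mem_range] at hj; omega)]
          exact hmin j hj
    rw [← h1] at h2
    refine h2.trans ?_
    rw [Set.ncard_eq_toFinset_card V hVfin]
    refine Finset.card_le_card_of_injOn (fun z : 𝓞 K => (z : K)) ?_ hinj.injOn
    intro z hz
    rw [Finset.mem_coe, Finset.mem_biUnion] at hz
    obtain ⟨j, hj, hz⟩ := hz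
    rw [Finset.mem_range] at hj
    rw [Finset.mem_coe, Set.Finite.mem_toFinset]
    exact hSV j (by omega) z ((hSf j (by omega) z).1 hz)
  have hid := hI n d t hdt F hS K p hp (w j₀)
  change Nb ≤ Na ^ d * ((S j₀).ncard : ℝ) ^ e at hid
  have h1 : mulHeight P ^ (d - 1) * τ ^ e ≤ ((S j₀).ncard : ℝ) ^ e := by
    have h2 := hstar.trans hid
    have h3 : (mulHeight P ^ (d - 1) * τ ^ e) * Na ^ d ≤ ((S j₀).ncard : ℝ) ^ e * Na ^ d := by
      linarith
    exact le_of_mul_le_mul_right h3 (by positivity)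
  have h2 : (((J + 1 : ℕ) : ℝ) * (S j₀).ncard) ≤ V.ncard := by exact_mod_cast hcount
  have h3 : ((H : ℝ) / (3 * m)) ^ e * mulHeight P ^ (d - 1) ≤
      (((J + 1 : ℕ) : ℝ) * (S j₀).ncard) ^ e := by
    have h4 : (H : ℝ) / (3 * m) = (H : ℝ) / (3 * m * τ) * τ := by field_simp
    rw [h4, mul_pow, mul_pow]
    have h5 : ((H : ℝ) / (3 * m * τ)) ^ e ≤ ((J + 1 : ℕ) : ℝ) ^ e := by
      refine pow_le_pow_left₀ (by positivity) ?_ _
      push_cast
      exact hJlt.le
    calc ((H : ℝ) / (3 * m * τ)) ^ e * τ ^ e * mulHeight P ^ (d - 1) =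
        ((H : ℝ) / (3 * m * τ)) ^ e * (mulHeight P ^ (d - 1) * τ ^ e) := by ring
      _ ≤ ((J + 1 : ℕ) : ℝ) ^ e * ((S j₀).ncard : ℝ) ^ e :=
          mul_le_mul h5 h1 (by positivity) (by positivity)
  refine h3.trans ?_
  have h6 : (nv t T P : ℝ) = (V.ncard : ℝ) := rfl
  rw [h6]
  exact pow_le_pow_left₀ (by positivity) h2 _

end core

theorem arch : S_ideal → S_low := by
  intro hI n d t H hn hd hdt _ F hF hS K _ _ P hP hle
  obtain ⟨b, hb⟩ := IsLocalization.exist_integer_multiples_of_finite (nonZeroDivisors (𝓞 K)) P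
  choose p hp using hb
  set c : K := ((b : 𝓞 K) : K) with hc
  have hc0 : c ≠ 0 := by
    intro h0
    have h1 : (b : 𝓞 K) = 0 := RingOfIntegers.ext h0
    exact nonZeroDivisors.coe_ne_zero b h1
  have hpP : (fun k => (p k : K)) = fun k => c * P k := by
    funext k
    have h1 := hp k
    rw [Algebra.smul_def] at h1
    exact h1
  have hp0 : p ≠ 0 := by
    intro h0
    apply hP
    funext k
    have h1 := congrFun hpP k
    rw [h0] at h1
    have h2 : ((0 : 𝓞 K) : K) = 0 := map_zero (algebraMap (𝓞 K) K)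
    have h3 : c * P k = 0 := by rw [← h1]; exact h2
    rcases mul_eq_zero.1 h3 with h4 | h4
    · exact absurd h4 hc0
    · exact h4
  have hh : mulHeight (fun k => (p k : K)) = mulHeight P := by
    rw [hpP]
    exact mulHeight_smul_eq_mulHeight P hc0
  have hh2 : mulHeight (fun i => ev (F i) (fun k => (p k : K))) = mulHeight (fun i => ev (F i) P) := by
    rw [hpP]
    have h1 : (fun i => ev (F i) (fun k => c * P k)) = c ^ d • fun i => ev (F i) P := by
      funext i
      rw [ev_smul]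
      rfl
    rw [h1]
    exact mulHeight_smul_eq_mulHeight _ (pow_ne_zero d hc0)
  have hnv : nv t (H + n * Fintype.card (E n (t - d)) * H) (fun k => (p k : K)) =
      nv t (H + n * Fintype.card (E n (t - d)) * H) P := by
    unfold nv
    rw [hpP]
    have h1 : (fun g : E n t → ℤ => ev g (fun k => c * P k)) =
        (fun z : K => c ^ t * z) ∘ fun g : E n t → ℤ => ev g P := by
      funext g
      exact ev_smul c g P
    rw [h1, Set.image_comp]
    exact Set.ncard_image_of_injective _ (mul_right_injective₀ (pow_ne_zero t hc0))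
  have := core hI hn hd hdt F hF hS K p hp0 (by rw [hh, hh2]; exact hle)
  rw [hh, hnv] at this
  exact this

end Pool.Agent.W462.GE
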